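import Mathlib
import Pool.Agent.H.MP_c3bf79_al.Main

set_option autoImplicit false
open Pool.Agent.H.MP_c3bf79_al

namespace Pool.Agent.Results.MP_c3bf79_al.Genus

/-- the divided power algebra over the integers, as a type -/
def A : Type := Main.D

noncomputable instance : CommRing A := inferInstanceAs (CommRing Main.D)

noncomputable def x (n : ℕ) : A := Main.x n

/-- relations x u = 0 and x v = c x^[5] u, with u in degree 0 and v in degree 4 -/
noncomputable def R (c : ℤ) : Submodule A (A × A) :=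
  Submodule.span A {(x 1, 0), (-(c • x 5), x 1)}

def N (c : ℤ) : Type := (A × A) ⧸ R c

noncomputable instance (c : ℤ) : AddCommGroup (N c) :=
  inferInstanceAs (AddCommGroup ((A × A) ⧸ R c))

noncomputable instance (c : ℤ) : Module A (N c) := inferInstanceAs (Module A ((A × A) ⧸ R c))

noncomputable def cls (c : ℤ) (p : A × A) : N c := Submodule.Quotient.mk p

/-- degree j part: image of the degree j part of A + A[-4] -/
noncomputable def deg (c : ℤ) (j : ℕ) : AddSubgroup (N c) :=
  AddSubgroup.closure {w | w = cls c (x j, 0) ∨ ∃ i, i + 4 = j ∧ w = cls c (0, x i)}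

/-- the truncation to degrees at least n -/
noncomputable def tau (c : ℤ) (n : ℕ) : Submodule A (N c) :=
  Submodule.span A {w | ∃ j, n ≤ j ∧ w ∈ deg c j}

def TruncIso (c c' : ℤ) (n : ℕ) : Prop :=
  ∃ φ : tau c n ≃ₗ[A] tau c' n, ∀ j w, w.1 ∈ deg c j ↔ (φ w).1 ∈ deg c' j

def Iso (c c' : ℤ) : Prop := ∃ ψ : N c ≃ₗ[A] N c', ∀ j w, w ∈ deg c j ↔ ψ w ∈ deg c' j

theorem result : TruncIso 1 2 5 ∧ ¬ Iso 1 2 := Main.main

end Pool.Agent.Results.MP_c3bf79_al.Genus
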